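import Pool.Agent.Y262.QE.Stm

/-! Project QE (helper262), part FIN: the area is finite and positive on open sets. -/

set_option autoImplicit false

open Set Filter Topology MeasureTheory

namespace Pool.Agent.Y274.QE.Fin

open Pool.Agent.Y262.QE

theorem cont_det {M : Type} [TopologicalSpace M] [MeasurableSpace M] {μ : Measure M} {D : Data M}
    (hD : D.IsSurf μ) (i : Fin D.N) {z₀ : ℂ} (hz : z₀ ∈ D.T i) :
    ContinuousAt (fun z => |(D.A i z).det|) z₀ := by
  have h1 : ContinuousAt (D.A i) z₀ := (hD.contA i).continuousAt ((hD.openT i).mem_nhds hz)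
  exact (ContinuousLinearMap.continuous_det.continuousAt.comp h1).abs

theorem fin : StFin := by
  intro M _ _ _ _ μ D hD
  constructor
  · have hloc : IsLocallyFiniteMeasure μ := by
      refine ⟨fun p => ?_⟩
      obtain ⟨i, hi⟩ := hD.cover p
      have hz : D.φ i p ∈ D.T i := ⟨p, hi, rfl⟩
      have h1 := cont_det hD i hz
      have h2 : {z | |(D.A i z).det| < |(D.A i (D.φ i p)).det| + 1} ∈ 𝓝 (D.φ i p) :=
        h1.eventually (gt_mem_nhds (lt_add_one _))
      obtain ⟨r, hr, hrs⟩ := Metric.mem_nhds_iff.1 h2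
      have hO : IsOpen (D.U i ∩ D.φ i ⁻¹' Metric.ball (D.φ i p) r) :=
        (hD.contφ i).isOpen_inter_preimage (hD.openU i) Metric.isOpen_ball
      refine ⟨D.U i ∩ D.φ i ⁻¹' Metric.ball (D.φ i p) r,
        hO.mem_nhds ⟨hi, Metric.mem_ball_self hr⟩, ?_⟩
      rw [hD.area i _ inter_subset_left hO.measurableSet]
      calc ∫⁻ z in D.φ i '' (D.U i ∩ D.φ i ⁻¹' Metric.ball (D.φ i p) r),
            ENNReal.ofReal |(D.A i z).det|
          ≤ ∫⁻ z in Metric.ball (D.φ i p) r, ENNReal.ofReal |(D.A i z).det| := by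
            apply lintegral_mono_set
            rintro _ ⟨x, hx, rfl⟩
            exact hx.2
        _ ≤ ∫⁻ _ in Metric.ball (D.φ i p) r,
              ENNReal.ofReal (|(D.A i (D.φ i p)).det| + 1) := by
            refine setLIntegral_mono' measurableSet_ball fun z hz => ?_
            exact ENNReal.ofReal_le_ofReal (le_of_lt (hrs hz))
        _ < ⊤ := by
            rw [setLIntegral_const]
            exact ENNReal.mul_lt_top ENNReal.ofReal_lt_top measure_ball_lt_top
    infer_instance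
  · rintro O hO ⟨p, hp⟩
    obtain ⟨i, hi⟩ := hD.cover p
    have hz : D.φ i p ∈ D.T i := ⟨p, hi, rfl⟩
    have h1 := cont_det hD i hz
    have hpos : 0 < |(D.A i (D.φ i p)).det| := abs_pos.2 (hD.det i _ hz)
    have h2 : {z | |(D.A i (D.φ i p)).det| / 2 < |(D.A i z).det|} ∈ 𝓝 (D.φ i p) :=
      h1.eventually (lt_mem_nhds (half_lt_self hpos))
    have h3 : D.T i ∩ D.ψ i ⁻¹' O ∈ 𝓝 (D.φ i p) :=
      ((hD.contψ i).isOpen_inter_preimage (hD.openT i) hO).mem_nhds
        ⟨hz, by rw [mem_preimage, hD.left i p hi]; exact hp⟩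
    obtain ⟨r, hr, hrs⟩ := Metric.mem_nhds_iff.1 (Filter.inter_mem h2 h3)
    have hsub : Metric.ball (D.φ i p) r ⊆ D.φ i '' (D.U i ∩ O) := by
      intro z hz'
      obtain ⟨⟨x, hx, rfl⟩, hzO⟩ := (hrs hz').2
      rw [mem_preimage, hD.left i x hx] at hzO
      exact ⟨x, ⟨hx, hzO⟩, rfl⟩
    calc (0 : ENNReal) < ENNReal.ofReal (|(D.A i (D.φ i p)).det| / 2) *
          volume (Metric.ball (D.φ i p) r) :=
          ENNReal.mul_pos (ENNReal.ofReal_pos.2 (half_pos hpos)).ne'
            (Metric.measure_ball_pos volume _ hr).ne'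
      _ = ∫⁻ _ in Metric.ball (D.φ i p) r, ENNReal.ofReal (|(D.A i (D.φ i p)).det| / 2) := by
          rw [setLIntegral_const]
      _ ≤ ∫⁻ z in Metric.ball (D.φ i p) r, ENNReal.ofReal |(D.A i z).det| := by
          refine setLIntegral_mono' measurableSet_ball fun z hz' => ?_
          exact ENNReal.ofReal_le_ofReal (le_of_lt (hrs hz').1)
      _ ≤ ∫⁻ z in D.φ i '' (D.U i ∩ O), ENNReal.ofReal |(D.A i z).det| := lintegral_mono_set hsub
      _ = μ (D.U i ∩ O) := (hD.area i _ inter_subset_left ((hD.openU i).inter hO).measurableSet).symm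
      _ ≤ μ O := measure_mono inter_subset_right

end Pool.Agent.Y274.QE.Fin
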